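import Pool.Agent.R900.FG.Main

/-!
# Finite generation in negative weights: Jacobian abelian schemes suffice

`H n i X` is the group `H^i(X_et, ℤ^c(n))` of an arithmetic scheme `X` (separated and of finite type over `ℤ`)
in the weight `n < 0`. A Jacobian is the relative Jacobian `J = Pic^0(C / V)`, an abelian scheme over `V`, of a
smooth projective curve `C → V` with geometrically connected fibres and with a section, over a regular,
affine, connected arithmetic scheme `V` (over a finite field, or flat over `ℤ`).

**Theorem.** (1) For every weight `n < 0` the groups `H^i(X_et, ℤ^c(n))`, `i ∈ ℤ`, are finitely generated
for all arithmetic schemes `X` if and only if they are finitely generated for all Jacobians `J`.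

(2) Let `n < 0` and `d ≥ 0`. If the groups of the weights `m ≤ n` are finitely generated for all Jacobians
over bases `V` of dimension less than `d`, then they are finitely generated for all arithmetic schemes of
dimension at most `d`.

So the conjecture is a statement on abelian schemes: on schemes which are smooth and proper over `V` and
have the additional structure of a group, the decomposition of the cohomology with respect to
the multiplication by integers, and so on.

The idea. The function field of `X` is the function field of a curve over a smaller field. After a finite
extension this curve is an open part of the generic fibre of a curve `C → V` as above. For large `N` the
symmetric power `P = Sym^N(C / V)` is a projective bundle over `J`. If `s` is the section then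
`iota : C → P`, `x ↦ x + (N - 1) s`, and the correspondence `rho` of all pairs `(D, x)`, `x` in `D`, satisfy
`rho ∘ iota = 1 + (N - 1) s_* π_*` with the projection `π : C → V`. So the groups of `C` are generated by the
images of those of `P` and `V`. For a finite covering `f : U' → U` of degree `m` of regular schemes
`f_* f^* = m`, and the elements of order dividing `m` form a finite group, as the groups with finite
coefficients are finite in the weights `n < 0`. The rest is an induction with the localization sequences.
`IsSchemes` and `IsCohomology` list the facts that are used (all known: Geisser, Morin for the groups; the
structure of the symmetric powers of curves).
-/

set_option autoImplicit false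

namespace Pool.Agent.Results.MP_e93a6a_ag.AbelianSchemes

open Pool.Agent.R900.FG

/-- The finite generation in each weight `n < 0` for all arithmetic schemes is equivalent to that for all
Jacobians of curves; for schemes of dimension at most `d` it follows from that for the Jacobians over
bases of dimension less than `d` in the weights at most `n`. -/
theorem result {S : Type} {G : Schemes S} {T : Cohomology S} (hG : IsSchemes G)
    (hT : IsCohomology G T) : OneWeight G T ∧ Bounded G T :=
  ⟨oneWeight hG hT, bounded hG hT⟩

end Pool.Agent.Results.MP_e93a6a_ag.AbelianSchemes
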