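import Pool.Agent.R904.EL.EtCycle

/-!
# Finite generation in negative weights: complements of elementary arrangements suffice

`EtCycle` lists the properties of the groups `Hⁱ(X_et, ℤᶜ(n))`, `n < 0`, which are used: localization
sequences, the formula for affine spaces over `ℤ`, finite generation for `Spec ℤ`. An elementary
arrangement is a finite union of hypersurfaces of the forms `xᵢ xⱼ = xₖ`, `xᵢ + xⱼ = xₖ`, `xᵢ = 1` in an
affine space over `ℤ`.
-/

set_option autoImplicit false

open Pool.Agent.R904.CU Pool.Agent.R904.EL AlgebraicGeometry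

namespace Pool.Agent.Results.MP_e93a6a_ag.ElementaryArrangements

/-- (1) For every weight `n < 0` and every bound `m`: the groups `Hⁱ(X_et, ℤᶜ(n))`, `i ≤ m`, are finitely
generated for all arithmetic schemes `X` if and only if they are finitely generated for the complements
of elementary arrangements in affine spaces over `ℤ`. (2) So the conjecture for all arithmetic schemes,
all `n < 0` and all `i` is equivalent to the conjecture for these complements. -/
theorem result (T : EtCycle) :
    (∀ n : ℤ, n < 0 → ∀ m : ℤ, T.AllFG n m ↔ T.ArrFG n m) ∧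
    ((∀ (X : Scheme.{0}) (f : X ⟶ Spec (.of ℤ)), SepFinType ℤ X f → ∀ n : ℤ, n < 0 →
        ∀ i : ℤ, AddGroup.FG (T.H n i X)) ↔
      ∀ (σ : Type) [Fintype σ], ∀ a ∈ elemProds ({1} : Set ℤ) σ, ∀ n : ℤ, n < 0 →
        ∀ i : ℤ, AddGroup.FG (T.H n i (compl a))) := by
  refine ⟨fun n hn m => T.allFG_iff n hn m, fun h σ _ a ha n hn i => ?_, fun h X f hf n hn i => ?_⟩
  · exact (T.allFG_iff n hn i).1 (fun X f hf i _ => h X f hf n hn i) σ a ha i le_rfl
  · exact (T.allFG_iff n hn i).2 (fun σ _ a ha i _ => h σ a ha n hn i) X f hf i le_rfl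

end Pool.Agent.Results.MP_e93a6a_ag.ElementaryArrangements
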