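import Pool.Agent.R166.SW.Window

/-!
# MP_e93a6a_ag: one weight and the upper degrees for complements of elementary arrangements

An elementary arrangement is a finite union of hypersurfaces of the forms `x_i x_j = x_k`,
`x_i + x_j = x_k`, `x_i = 1` in an affine space over `ℤ`. Its complement `compl a` is the spectrum of
`ℤ[x_1, …, x_N, 1/a]`, where `a` is the product of the polynomials `x_i x_j - x_k`, `x_i + x_j - x_k`,
`x_i - 1`: a smooth affine scheme over `ℤ`, open in affine space, of dimension `d = N + 1`.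

`EtTheory` (Pool/Agent/R166/SW/Fg.lean) lists the properties of the groups `H w i X = Hⁱ(X_et, ℤᶜ(-w))`
which are used.

Let `φ : ℕ → ℕ` be unbounded (it may grow very slowly). Q1 (all arithmetic schemes `X`, all weights
`n = -w < 0`, all degrees `i`) is true if and only if the groups `Hⁱ(U_et, ℤᶜ(-1))` are finitely
generated for the complements `U` of elementary arrangements and for `i ≥ -d - φ(d)`, `d = dim U`. In the
notation of regular schemes these are the groups `H^p(U_et, ℤ(d+1))`, `p ≥ d - φ(d)`. There are also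
versions with fixed weights and with degrees bounded from above.

The proof. That the complements `U` suffice if all degrees `i ≤ m` are allowed is the theorem of helper904
(MP_e93a6a_ag/ElementaryArrangements, R904.EL). The weight is lowered by `Hⁱ(𝔸¹_X, n) = H^{i+2}(X, n-1)`,
applied to all arithmetic schemes `X`. For the range of degrees: `U` is the hyperplane section `x = 1` of
`U × 𝔸¹`, whose complement is again, as `U × 𝔸¹`, a complement of an elementary arrangement. So
`Hⁱ(U)` lies in an exact sequence between `Hⁱ⁻¹(U × (𝔸¹ - 1))` and `Hⁱ(U × 𝔸¹)`. After `k` such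
steps the group `Hⁱ(U)` is built from the groups of complements of dimension `d + k` in the degrees
`i - k, …, i`.
-/

set_option autoImplicit false

open CategoryTheory AlgebraicGeometry
open Pool.Agent.R904.CU Pool.Agent.R904.EL Pool.Agent.R166.SW

namespace Pool.Agent.Results.MP_e93a6a_ag.OneWeightUpperDegrees

/-- Q1: for all arithmetic schemes `X`, all `n = -w < 0` and all `i`, the group `Hⁱ(X_et, ℤᶜ(n))` is
finitely generated. -/
def Q1 (T : EtTheory) : Prop := ∀ (X : Scheme.{0}) (f : X ⟶ Spec (.of ℤ)), SepFinType ℤ X f →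
  ∀ w : ℕ, 0 < w → ∀ i : ℤ, AddGroup.FG (T.H w i X)

/-- For the complements `U` of elementary arrangements, of dimension `d = N + 1`, the groups
`Hⁱ(U_et, ℤᶜ(-1))`, `i ≥ -d - φ(d)`, are finitely generated. -/
def WeightMinusOne (φ : ℕ → ℕ) (T : EtTheory) : Prop := ∀ (σ : Type) [Fintype σ],
  ∀ a ∈ elemProds ({1} : Set ℤ) σ, ∀ i : ℤ,
    -((Fintype.card σ + 1 : ℕ) : ℤ) - φ (Fintype.card σ + 1) ≤ i → AddGroup.FG (T.H 1 i (compl a))

/-- **Main theorem.** -/
theorem result (T : EtTheory) (φ : ℕ → ℕ) (hφ : ∀ B, ∃ d, B ≤ φ d) :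
    -- Q1 is equivalent to one weight and the upper degrees for the complements of arrangements
    (Q1 T ↔ WeightMinusOne φ T) ∧
    -- fixed weight `-w` and degrees `i ≤ m`
    (∀ (w : ℕ) (m : ℤ), T.UpperFG φ w m ↔ T.AllFG w m) ∧
    -- smaller weights
    (∀ (w : ℕ) (m : ℤ), T.UpperFG φ w m → ∀ k : ℕ, T.AllFG (w + k) (m + 2 * k)) := by
  refine ⟨⟨fun h σ _ a ha i _ => ?_, fun h X f hf w hw i => ?_⟩, fun w m => T.upper_iff hφ w m,
    fun w m h k => T.allFG_add w m ((T.upper_iff hφ w m).1 h) k⟩
  · have h1 : T.AllFG 1 i := fun X f hf j _ => h X f hf 1 one_pos j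
    exact (T.allFG_iff 1 i).1 h1 σ a ha i le_rfl
  · have h1 : T.UpperFG φ 1 (i - 2 * (w - 1 : ℕ)) := fun σ _ a ha j hj _ => h σ a ha j hj
    have h2 := T.allFG_add 1 _ ((T.upper_iff hφ 1 _).1 h1) (w - 1)
    have h3 : 1 + (w - 1) = w := by omega
    rw [h3, sub_add_cancel] at h2
    exact h2 X f hf i le_rfl

end Pool.Agent.Results.MP_e93a6a_ag.OneWeightUpperDegrees
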