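import Pool.Agent.R900.FG.Alt

/-!
# Finite generation in negative weights: strictly semistable projective schemes suffice

`H n i X` is the group `H^i(X_et, ℤ^c(n))` of an arithmetic scheme `X` (separated and of finite type over `ℤ`)
in the weight `n < 0`. `Regular` is the class of regular proper arithmetic schemes, and `Nice` is a class of
regular proper schemes for which the theorem of de Jong on alterations holds (`HasAlterations`), for
example the smooth projective varieties over finite fields together with the regular projective schemes
with strictly semistable reduction over the rings of integers of number fields.

**Theorem.** For every weight `n < 0` and every `d` the following are equivalent (`NiceSuffice`):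

* for all arithmetic schemes `X` of dimension at most `d`, proper or not, regular or not, the groups
  `H^i(X_et, ℤ^c(n))` are finitely generated for all `i`;
* for all nice schemes `Y` of dimension at most `d` they are finitely generated for `i ≤ -2 n + 1`.

So Q1 for all schemes is equivalent, weight by weight and dimension by dimension, to the conjecture of
Flach and Morin (`Q1`) for strictly semistable projective schemes.

Resolution of singularities is not used. An alteration `U' → U` of degree `m` gives `f_* f^* = m` only; the
kernel of `f^*` is finite as the groups with coefficients in `ℤ / m` are finite in the weights `n < 0`.
-/

set_option autoImplicit false

namespace Pool.Agent.Results.MP_e93a6a_ag.SemistableSchemes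

open Pool.Agent.R900.FG

/-- The finite generation in the weight `n < 0` for all arithmetic schemes of dimension at most `d` is
equivalent to the conjecture in the degrees `i ≤ -2 n + 1` for the nice schemes of dimension at most `d`. -/
theorem result {S : Type} {G : Schemes S} {T : Cohomology S} {Regular Nice : S → Prop}
    (hG : IsSchemes G) (hT : IsCohomology G T) (hA : HasAlterations G T Regular Nice) :
    NiceSuffice G T Nice :=
  niceSuffice hG hT hA

end Pool.Agent.Results.MP_e93a6a_ag.SemistableSchemes
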